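import Mathlib
import Pool.Agent.N790.IA.Rank

/-! Trees of prime patterns along finitely many ultrafilters. -/

set_option autoImplicit false

namespace Pool.Agent.H12x.UF

open Finset Filter
open Pool.Agent.N790.IA (hits PI classes avoid blocks blocks_unique)

/-- infinitely many `x` make the forms of `F` prime and those of `T` not prime -/
def Good (F T : Finset (ℤ × ℤ)) : Prop :=
  {x : ℕ | (∀ f ∈ F, (f.1 * x + f.2).toNat.Prime) ∧ ∀ f ∈ T, ¬ (f.1 * x + f.2).toNat.Prime}.Infinite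

theorem Good.mono {F F' T T' : Finset (ℤ × ℤ)} (h : Good F T) (hF : F' ⊆ F) (hT : T' ⊆ T) : Good F' T' :=
  Set.Infinite.mono (fun _ hx => ⟨fun f hf => hx.1 f (hF hf), fun f hf => hx.2 f (hT hf)⟩) h

/-- add a form to the first or the second set -/
def add (t : Bool) (f : ℤ × ℤ) (P : Finset (ℤ × ℤ) × Finset (ℤ × ℤ)) : Finset (ℤ × ℤ) × Finset (ℤ × ℤ) :=
  if t then (insert f P.1, P.2) else (P.1, insert f P.2)

/-- the positions from which a position without the property `G` is reached -/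
inductive Bad {n : ℕ} (p : Fin n → Ultrafilter (ℤ × ℤ))
    (G : Finset (ℤ × ℤ) × Finset (ℤ × ℤ) → Prop) (S : Finset (Fin n)) :
    Ordinal.{0} → Finset (ℤ × ℤ) × Finset (ℤ × ℤ) → Prop
  | base (α : Ordinal.{0}) (P : Finset (ℤ × ℤ) × Finset (ℤ × ℤ)) : ¬ G P → Bad p G S α P
  | step (α : Ordinal.{0}) (P : Finset (ℤ × ℤ) × Finset (ℤ × ℤ)) (a : Fin n) (ha : a ∈ S) (t : Bool)
      (X : Set (ℤ × ℤ)) (hX : X ∈ p a) (b : ℤ × ℤ → Ordinal.{0}) (hb : ∀ f ∈ X, b f < α)
      (h : ∀ f ∈ X, Bad p G S (b f) (add t f P)) : Bad p G S α P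

variable {n : ℕ} {p : Fin n → Ultrafilter (ℤ × ℤ)}
  {G : Finset (ℤ × ℤ) × Finset (ℤ × ℤ) → Prop} {S : Finset (Fin n)}

theorem good_of_not {P : Finset (ℤ × ℤ) × Finset (ℤ × ℤ)} (h : ∀ α, ¬ Bad p G S α P) : G P := by
  by_contra hG
  exact h 0 (Bad.base 0 P hG)

theorem next_of_not {P : Finset (ℤ × ℤ) × Finset (ℤ × ℤ)} (h : ∀ α, ¬ Bad p G S α P) {a : Fin n}
    (ha : a ∈ S) (t : Bool) : {f | ∀ α, ¬ Bad p G S α (add t f P)} ∈ p a := by
  classical
  by_contra hcon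
  have hcon' : {f | ∃ α, Bad p G S α (add t f P)} ∈ p a := by
    rw [← Ultrafilter.compl_mem_iff_notMem] at hcon
    refine Filter.mem_of_superset hcon ?_
    intro f hf
    simp only [Set.mem_compl_iff, Set.mem_ofPred_eq, not_forall, not_not] at hf
    exact hf
  set b : ℤ × ℤ → Ordinal.{0} := fun f =>
    if hj : ∃ α, Bad p G S α (add t f P) then hj.choose else 0 with hb
  obtain ⟨M, hM⟩ : BddAbove (Set.range b) := Ordinal.bddAbove_of_small
  refine h (Order.succ M) (Bad.step _ P a ha t _ hcon' b (fun f _ => ?_) (fun f hf => ?_))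
  · exact Order.lt_succ_of_le (hM (Set.mem_range_self f))
  · have hf' : ∃ α, Bad p G S α (add t f P) := hf
    simp only [hb]
    rw [dif_pos hf']
    exact hf'.choose_spec

theorem strat (hn : 1 ≤ n) (S : Finset (Fin n)) (P : Finset (ℤ × ℤ) × Finset (ℤ × ℤ)) :
    ∃ (a : Fin n) (t : Bool) (X : Set (ℤ × ℤ)), X ∈ p a ∧
      ∀ ρ, Bad p G S ρ P → (∀ ρ' < ρ, ¬ Bad p G S ρ' P) → G P →
        a ∈ S ∧ ∀ f ∈ X, ∃ β < ρ, Bad p G S β (add t f P) := by
  by_cases h : ∃ ρ, Bad p G S ρ P ∧ (∀ ρ' < ρ, ¬ Bad p G S ρ' P) ∧ G P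
  · obtain ⟨ρ, h1, h2, h3⟩ := h
    cases h1 with
    | base _ _ h4 => exact absurd h3 h4
    | step _ _ a ha t X hX b hb h4 =>
      refine ⟨a, t, X, hX, fun ρ' h5 h6 _ => ?_⟩
      have h7 : ρ' = ρ := by
        rcases lt_trichotomy ρ' ρ with h8 | h8 | h8
        · exact absurd h5 (h2 _ h8)
        · exact h8
        · exact absurd (Bad.step _ _ a ha t X hX b hb h4) (h6 _ h8)
      subst h7
      exact ⟨ha, fun f hf => ⟨b f, hb f hf, h4 f hf⟩⟩
  · exact ⟨⟨0, hn⟩, true, Set.univ, Filter.univ_mem, fun ρ h1 h2 h3 => absurd ⟨ρ, h1, h2, h3⟩ h⟩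

/-- generic sequences -/
theorem gseq {β : Type} [DecidableEq β] (p : Fin n → Ultrafilter β) (lab : ℕ → Fin n)
    (Φ : Fin n → Finset β → Set β) (hΦ : ∀ a Q, Φ a Q ∈ p a) :
    ∃ f : ℕ → β, ∀ i, f i ∈ Φ (lab i) ((range i).image f) := by
  have step : ∀ a (Q : Finset β), ∃ x, x ∈ Φ a Q := fun a Q => (p a).nonempty_of_mem (hΦ a Q)
  choose g hg using step
  let Qs : ℕ → Finset β := fun i => Nat.rec ∅ (fun i Q => insert (g (lab i) Q) Q) i
  have hQs : ∀ i, Qs (i + 1) = insert (g (lab i) (Qs i)) (Qs i) := fun i => rfl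
  have hQ : ∀ i, Qs i = (range i).image (fun i => g (lab i) (Qs i)) := by
    intro i
    induction i with
    | zero => simp [Qs]
    | succ i ih =>
      conv_lhs => rw [hQs, ih]
      rw [range_add_one, image_insert, ← ih]
  refine ⟨fun i => g (lab i) (Qs i), fun i => ?_⟩
  have := hg (lab i) (Qs i)
  change g (lab i) (Qs i) ∈ _
  rwa [← hQ i]

theorem lim_val {β γ : Type} [Finite γ] (q : Ultrafilter β) (g : β → γ) : ∃ v, {x | g x = v} ∈ q := by
  by_contra hcon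
  have h1 : ∀ v : γ, ∀ᶠ x in (q : Filter β), g x ≠ v := fun v =>
    Ultrafilter.eventually_not.2 fun h => hcon ⟨v, h⟩
  have h2 : ∀ᶠ x in (q : Filter β), ∀ v : γ, g x ≠ v := Filter.eventually_all.2 h1
  obtain ⟨j, hj⟩ := h2.exists
  exact hj _ rfl

/-- the conditions on the ultrafilters -/
structure Adm (p : Fin n → Ultrafilter (ℤ × ℤ)) : Prop where
  free : ∀ a f, {f}ᶜ ∈ p a
  form : ∀ a, {f : ℤ × ℤ | 1 ≤ f.1 ∧ IsCoprime f.1 f.2} ∈ p a
  small : ∀ q : ℕ, q.Prime → q ≤ n → ∃ c : ℤ, ∀ a, {f : ℤ × ℤ | ¬ (q : ℤ) ∣ f.1 * c + f.2} ∈ p a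

theorem Adm.notMem (hp : Adm p) (a : Fin n) (Q : Finset (ℤ × ℤ)) : {f | f ∉ Q} ∈ p a := by
  have : ∀ᶠ f in (p a : Filter (ℤ × ℤ)), ∀ g ∈ Q, f ≠ g := by
    rw [Filter.eventually_all_finset]
    intro g _
    exact hp.free a g
  filter_upwards [this] with f hf hfQ
  exact hf f hfQ rfl

/-- a residue vector for each modulus and each label -/
theorem Adm.lims (hp : Adm p) : ∃ v : (m : ℕ) → Fin n → ZMod (m + 1) × ZMod (m + 1),
    ∀ m a, {f : ℤ × ℤ | ((f.1 : ZMod (m + 1)), (f.2 : ZMod (m + 1))) = v m a} ∈ p a := by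
  have h : ∀ (m : ℕ) (a : Fin n), ∃ w : ZMod (m + 1) × ZMod (m + 1),
      {f : ℤ × ℤ | ((f.1 : ZMod (m + 1)), (f.2 : ZMod (m + 1))) = w} ∈ p a := fun m a => lim_val (p a) _
  choose v hv using h
  exact ⟨v, hv⟩

/-- generic sequences which satisfy the congruence conditions -/
theorem Adm.generic (hp : Adm p) (lab : ℕ → Fin n)
    (Φ : Fin n → Finset (ℤ × ℤ) → Set (ℤ × ℤ)) (hΦ : ∀ a Q, Φ a Q ∈ p a) :
    ∃ f : ℕ → ℤ × ℤ, Function.Injective f ∧ (∀ i, f i ∈ Φ (lab i) ((range i).image f)) ∧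
      (∀ i, 1 ≤ (f i).1) ∧ (∀ i, IsCoprime (f i).1 (f i).2) ∧
      (∀ e : ℕ → ℕ, StrictMono e → ∀ q : ℕ, q.Prime → ∃ x : ℕ, ∀ i, ¬ (q : ℤ) ∣ (f (e i)).1 * x + (f (e i)).2) := by
  classical
  obtain ⟨v, hv⟩ := hp.lims
  have hsm : ∃ c : ℕ → ℤ, ∀ q : ℕ, q.Prime → q ≤ n → ∀ a, {f : ℤ × ℤ | ¬ (q : ℤ) ∣ f.1 * c q + f.2} ∈ p a := by
    have : ∀ q : ℕ, ∃ c : ℤ, q.Prime → q ≤ n → ∀ a, {f : ℤ × ℤ | ¬ (q : ℤ) ∣ f.1 * c + f.2} ∈ p a := by
      intro q
      by_cases hq : q.Prime ∧ q ≤ n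
      · obtain ⟨c, hc⟩ := hp.small q hq.1 hq.2
        exact ⟨c, fun _ _ => hc⟩
      · exact ⟨0, fun h1 h2 => absurd ⟨h1, h2⟩ hq⟩
    choose c hc using this
    exact ⟨c, hc⟩
  obtain ⟨c, hc⟩ := hsm
  obtain ⟨f, hf⟩ := gseq p lab (fun a Q => Φ a Q ∩ {f | f ∉ Q} ∩
      {f : ℤ × ℤ | 1 ≤ f.1 ∧ IsCoprime f.1 f.2} ∩
      {f | ∀ m ∈ range (Q.card + n + 1), ((f.1 : ZMod (m + 1)), (f.2 : ZMod (m + 1))) = v m a} ∩
      {f | ∀ q ∈ range (n + 1), q.Prime → ¬ (q : ℤ) ∣ f.1 * c q + f.2}) (by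
    intro a Q
    refine inter_mem (inter_mem (inter_mem (inter_mem (hΦ a Q) (hp.notMem a Q)) (hp.form a)) ?_) ?_
    · have : ∀ᶠ f in (p a : Filter (ℤ × ℤ)), ∀ m ∈ range (Q.card + n + 1),
          (((f : ℤ × ℤ).1 : ZMod (m + 1)), (f.2 : ZMod (m + 1))) = v m a := by
        rw [Filter.eventually_all_finset]
        intro m _
        exact hv m a
      exact this
    · have : ∀ᶠ f in (p a : Filter (ℤ × ℤ)), ∀ q ∈ range (n + 1), q.Prime →
          ¬ (q : ℤ) ∣ (f : ℤ × ℤ).1 * c q + f.2 := by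
        rw [Filter.eventually_all_finset]
        intro q hq
        by_cases hq' : q.Prime
        · filter_upwards [hc q hq' (by rw [mem_range] at hq; omega) a] with f hf _ using hf
        · filter_upwards with f h using absurd h hq'
      exact this)
  have hinj : Function.Injective f := by
    intro i j hij
    rcases lt_trichotomy i j with h | h | h
    · exact absurd (mem_image.2 ⟨i, mem_range.2 h, hij⟩) (hf j).1.1.1.2
    · exact h
    · exact absurd (mem_image.2 ⟨j, mem_range.2 h, hij.symm⟩) (hf i).1.1.1.2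
  refine ⟨f, hinj, fun i => (hf i).1.1.1.1, fun i => (hf i).1.1.2.1, fun i => (hf i).1.1.2.2, ?_⟩
  intro e he q hq
  have hcard : ∀ i, ((range i).image f).card = i := by
    intro i
    rw [card_image_of_injective _ hinj, card_range]
  rcases Nat.lt_or_ge n q with hnp | hnp
  · have : Fact q.Prime := ⟨hq⟩
    obtain ⟨m, rfl⟩ : ∃ m, q = m + 1 := ⟨q - 1, by have := hq.pos; omega⟩
    have hnz : ∀ g : ℤ × ℤ, IsCoprime g.1 g.2 → ((g.1 : ZMod (m + 1)), (g.2 : ZMod (m + 1))) ≠ 0 := by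
      intro g hg h
      have h1 := (Prod.ext_iff.1 h).1
      have h2 := (Prod.ext_iff.1 h).2
      simp only [Prod.fst_zero, Prod.snd_zero] at h1 h2
      rw [ZMod.intCast_zmod_eq_zero_iff_dvd] at h1 h2
      have := hg.isUnit_of_dvd' h1 h2
      exact (Nat.prime_iff_prime_int.1 hq).not_isUnit this
    set D : Finset (ZMod (m + 1) × ZMod (m + 1)) :=
      ((range (m - n)).image (fun i => (((f (e i)).1 : ZMod (m + 1)), ((f (e i)).2 : ZMod (m + 1))))) ∪
        univ.image (v m) with hD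
    obtain ⟨x, hx⟩ := avoid hq D (by
      refine lt_of_le_of_lt (card_union_le _ _) ?_
      have h1 : ((range (m - n)).image
          (fun i => (((f (e i)).1 : ZMod (m + 1)), ((f (e i)).2 : ZMod (m + 1))))).card ≤ m - n := by
        refine card_image_le.trans ?_
        rw [card_range]
      have h2 : (univ.image (v m)).card ≤ n := by
        refine card_image_le.trans ?_
        simp
      omega) (by
      intro d hd
      rw [hD, mem_union, mem_image, mem_image] at hd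
      rcases hd with ⟨i, _, rfl⟩ | ⟨a, _, rfl⟩
      · exact hnz _ (hf (e i)).1.1.2.2
      · obtain ⟨g, hg1, hg2⟩ := (p a).nonempty_of_mem (inter_mem (hv m a) (hp.form a))
        have : ((g.1 : ZMod (m + 1)), (g.2 : ZMod (m + 1))) = v m a := hg1
        rw [← this]
        exact hnz _ hg2.2)
    refine ⟨x.val, fun i hi => ?_⟩
    have h1 := (ZMod.intCast_zmod_eq_zero_iff_dvd _ (m + 1)).2 hi
    push_cast at h1
    rw [ZMod.natCast_zmod_val] at h1
    by_cases him : i < m - n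
    · exact hx _ (by
        rw [hD]
        exact mem_union_left _ (mem_image_of_mem _ (mem_range.2 him))) h1
    · have h2 := (hf (e i)).1.2 m (mem_range.2 (by rw [hcard]; have := he.id_le i; simp only [id] at this; omega))
      refine hx (v m (lab (e i))) (by
        rw [hD]
        exact mem_union_right _ (mem_image_of_mem _ (mem_univ _))) ?_
      rw [← h2]
      exact h1
  · have hq0 : (0 : ℤ) < q := by exact_mod_cast hq.pos
    refine ⟨(c q % q).toNat, fun i hi => (hf (e i)).2 q (mem_range.2 (by omega)) hq ?_⟩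
    have h1 : (((c q % q).toNat : ℕ) : ℤ) = c q % q := Int.toNat_of_nonneg (Int.emod_nonneg _ hq0.ne')
    rw [h1] at hi
    have h2 : (f (e i)).1 * c q + (f (e i)).2 =
        ((f (e i)).1 * (c q % q) + (f (e i)).2) + q * ((f (e i)).1 * (c q / q)) := by
      have := Int.emod_add_mul_ediv (c q) q
      linear_combination (-(f (e i)).1) * this
    rw [h2]
    exact dvd_add hi (Dvd.intro _ rfl)

end Pool.Agent.H12x.UF
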