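import Mathlib
import Pool.Agent.H12x.UF.Tree

/-! Block sequences and trees. -/

set_option autoImplicit false

namespace Pool.Agent.H12x.UF

open Finset Filter

attribute [local instance] Ultrafilter.semigroup

/-- finite sets of natural numbers with the union -/
def Blk := Finset ℕ

instance : Semigroup Blk where
  mul a b := @Union.union (Finset ℕ) _ a b
  mul_assoc a b c := @Finset.union_assoc ℕ _ a b c

theorem exists_idem : ∃ V : Ultrafilter (Finset ℕ),
    (∀ m : ℕ, {β : Finset ℕ | β.Nonempty ∧ ∀ i ∈ β, m ≤ i} ∈ V) ∧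
    ∀ A : Set (Finset ℕ), (A ∈ V ↔ {β : Finset ℕ | {γ : Finset ℕ | β ∪ γ ∈ A} ∈ V} ∈ V) := by
  let T : Set (Ultrafilter Blk) := ⋂ m : ℕ, {U | {β : Finset ℕ | β.Nonempty ∧ ∀ i ∈ β, m ≤ i} ∈ U}
  have h := exists_idempotent_in_compact_subsemigroup (M := Ultrafilter Blk)
    Ultrafilter.continuous_mul_left T ?_ ?_ ?_
  · obtain ⟨V, hV, hVV⟩ := h
    refine ⟨V, fun m => Set.mem_iInter.1 hV m, fun A => ?_⟩
    have h1 : A ∈ V * V ↔ {β : Finset ℕ | {γ : Finset ℕ | β ∪ γ ∈ A} ∈ V} ∈ V :=
      Ultrafilter.eventually_mul V V (fun β => β ∈ A)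
    rw [hVV] at h1
    exact h1
  · refine ⟨(Filter.hyperfilter ℕ).map (fun m => ({m} : Finset ℕ)), ?_⟩
    rw [Set.mem_iInter]
    intro m
    change {β : Finset ℕ | β.Nonempty ∧ ∀ i ∈ β, m ≤ i} ∈ (Filter.hyperfilter ℕ).map (fun m => ({m} : Finset ℕ))
    rw [Ultrafilter.mem_map]
    have : ∀ᶠ i in (Filter.hyperfilter ℕ : Filter ℕ), m ≤ i :=
      Nat.hyperfilter_le_atTop (Filter.eventually_ge_atTop m)
    filter_upwards [this] with i hi
    refine ⟨singleton_nonempty i, fun j hj => ?_⟩
    rw [mem_singleton] at hj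
    omega
  · exact IsClosed.isCompact (isClosed_iInter fun i => ultrafilter_isClosed_basic _)
  · intro U hU V hV
    rw [Set.mem_iInter] at *
    intro m
    have h1 : {β : Finset ℕ | β.Nonempty ∧ ∀ i ∈ β, m ≤ i} ∈ U * V ↔
        {β : Finset ℕ | {γ : Finset ℕ | β ∪ γ ∈ {β : Finset ℕ | β.Nonempty ∧ ∀ i ∈ β, m ≤ i}} ∈ V} ∈ U :=
      Ultrafilter.eventually_mul U V (fun β => β ∈ {β : Finset ℕ | β.Nonempty ∧ ∀ i ∈ β, m ≤ i})
    refine h1.2 ?_
    filter_upwards [hU m] with β hβ
    filter_upwards [hV m] with γ hγ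
    refine ⟨hβ.1.mono subset_union_left, fun i hi => ?_⟩
    rcases mem_union.1 hi with h | h
    · exact hβ.2 i h
    · exact hγ.2 i h

/-- the points of `A` where `A` is again large -/
def star (V : Ultrafilter (Finset ℕ)) (A : Set (Finset ℕ)) : Set (Finset ℕ) :=
  {β | β ∈ A ∧ {γ | β ∪ γ ∈ A} ∈ V}

theorem star_mem {V : Ultrafilter (Finset ℕ)}
    (hV : ∀ A : Set (Finset ℕ), (A ∈ V ↔ {β : Finset ℕ | {γ : Finset ℕ | β ∪ γ ∈ A} ∈ V} ∈ V))
    {A : Set (Finset ℕ)} (hA : A ∈ V) : star V A ∈ V := inter_mem hA ((hV A).1 hA)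

theorem star_step {V : Ultrafilter (Finset ℕ)}
    (hV : ∀ A : Set (Finset ℕ), (A ∈ V ↔ {β : Finset ℕ | {γ : Finset ℕ | β ∪ γ ∈ A} ∈ V} ∈ V))
    {A : Set (Finset ℕ)} {β : Finset ℕ} (hβ : β ∈ star V A) : {γ | β ∪ γ ∈ star V A} ∈ V := by
  have h1 := hβ.2
  filter_upwards [h1, (hV _).1 h1] with γ h2 h3
  refine ⟨h2, ?_⟩
  filter_upwards [h3] with δ h4
  rw [union_assoc]
  exact h4

/-- the set of the forms which belong to the blocks generated by `Q` -/
def forms {n : ℕ} (φ : Fin n → Finset ℕ → ℤ × ℤ) (Q : Finset (Finset ℕ)) : Finset (ℤ × ℤ) :=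
  (univ ×ˢ Q.powerset).image (fun x => φ x.1 (x.2.biUnion id))

theorem forms_mono {n : ℕ} (φ : Fin n → Finset ℕ → ℤ × ℤ) {Q Q' : Finset (Finset ℕ)} (h : Q ⊆ Q') :
    forms φ Q ⊆ forms φ Q' :=
  image_subset_image (product_subset_product_right (powerset_mono.2 h))

/-- **block sequences inside trees** -/
theorem fusion {n : ℕ} {V : Ultrafilter (Finset ℕ)}
    (hV0 : ∀ m : ℕ, {β : Finset ℕ | β.Nonempty ∧ ∀ i ∈ β, m ≤ i} ∈ V)
    (hV : ∀ A : Set (Finset ℕ), (A ∈ V ↔ {β : Finset ℕ | {γ : Finset ℕ | β ∪ γ ∈ A} ∈ V} ∈ V))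
    (φ : Fin n → Finset ℕ → ℤ × ℤ) (S : Finset (Fin n)) (M : Finset Bool)
    (W : Set (Finset (ℤ × ℤ) × Finset (ℤ × ℤ))) (h0 : (∅, ∅) ∈ W)
    (hW : ∀ P ∈ W, ∀ a ∈ S, ∀ t ∈ M, {β | add t (φ a β) P ∈ W ∧ φ a β ∉ P.1 ∪ P.2} ∈ V) :
    ∃ H : ℕ → Finset ℕ, (∀ m, (H m).Nonempty) ∧ (∀ m, ∀ i ∈ H m, ∀ j ∈ H (m + 1), i < j) ∧
      ∀ α : ℕ → Finset ℕ, (∀ l, (α l).Nonempty) → (∀ l, ∀ i ∈ α l, ∀ j ∈ α (l + 1), i < j) →
        ∀ s : ℕ → Fin n, (∀ l, s l ∈ S) → ∀ t : ℕ → Bool, (∀ l, t l ∈ M) → ∀ L : ℕ,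
          (((range L).filter (fun l => t l = true)).image (fun l => φ (s l) ((α l).biUnion H)),
            ((range L).filter (fun l => t l = false)).image (fun l => φ (s l) ((α l).biUnion H))) ∈ W ∧
          ∀ l < L, φ (s l) ((α l).biUnion H) ≠ φ (s L) ((α L).biUnion H) := by
  classical
  set E : Fin n → Bool → Finset (ℤ × ℤ) × Finset (ℤ × ℤ) → Set (Finset ℕ) := fun a t P =>
    {β | add t (φ a β) P ∈ W ∧ φ a β ∉ P.1 ∪ P.2} with hE
  set K : Finset (Finset ℕ) → Finset (Finset (ℤ × ℤ) × Finset (ℤ × ℤ)) := fun Q =>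
    (forms φ Q).powerset ×ˢ (forms φ Q).powerset with hK
  have hKmono : ∀ {Q Q' : Finset (Finset ℕ)}, Q ⊆ Q' → K Q ⊆ K Q' := by
    intro Q Q' h
    exact product_subset_product (powerset_mono.2 (forms_mono φ h)) (powerset_mono.2 (forms_mono φ h))
  obtain ⟨H, hH⟩ := gseq (n := 1) (fun _ => V) (fun _ => 0)
    (fun _ Q => {β | β.Nonempty ∧ ∀ i ∈ β, Q.sup (fun γ => γ.sup id) + 1 ≤ i} ∩
      ({β | ∀ P ∈ K Q, ∀ a ∈ S, ∀ t ∈ M, P ∈ W → β ∈ star V (E a t P)} ∩
      {β | ∀ P ∈ K Q, ∀ a ∈ S, ∀ t ∈ M, ∀ R ∈ Q.powerset, R.biUnion id ∈ star V (E a t P) →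
        R.biUnion id ∪ β ∈ star V (E a t P)})) (by
    intro _ Q
    refine inter_mem (hV0 _) (inter_mem ?_ ?_)
    · have : ∀ᶠ β in (V : Filter (Finset ℕ)), ∀ P ∈ K Q, ∀ a ∈ S, ∀ t ∈ M, P ∈ W → β ∈ star V (E a t P) := by
        rw [Filter.eventually_all_finset]
        intro P _
        rw [Filter.eventually_all_finset]
        intro a ha
        rw [Filter.eventually_all_finset]
        intro t ht
        by_cases hP : P ∈ W
        · filter_upwards [star_mem hV (hW P hP a ha t ht)] with β hβ _ using hβ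
        · filter_upwards with β h using absurd h hP
      exact this
    · have : ∀ᶠ β in (V : Filter (Finset ℕ)), ∀ P ∈ K Q, ∀ a ∈ S, ∀ t ∈ M, ∀ R ∈ Q.powerset,
          R.biUnion id ∈ star V (E a t P) → R.biUnion id ∪ β ∈ star V (E a t P) := by
        rw [Filter.eventually_all_finset]
        intro P _
        rw [Filter.eventually_all_finset]
        intro a ha
        rw [Filter.eventually_all_finset]
        intro t ht
        rw [Filter.eventually_all_finset]
        intro R _
        by_cases hR : R.biUnion id ∈ star V (E a t P)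
        · filter_upwards [star_step hV hR] with β hβ _ using hβ
        · filter_upwards with β h using absurd h hR
      exact this)
  -- unions of blocks are in the starred sets
  have hA : ∀ (l : ℕ) (P : Finset (ℤ × ℤ) × Finset (ℤ × ℤ)), P ∈ K ((range l).image H) → P ∈ W → ∀ a ∈ S, ∀ t ∈ M,
      ∀ α : Finset ℕ, α.Nonempty → (∀ i ∈ α, l ≤ i) → α.biUnion H ∈ star V (E a t P) := by
    intro l P hP hPW a ha t ht α
    induction α using Finset.induction_on_max with
    | empty => intro h; exact absurd h (by simp)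
    | insert m α hmax ih =>
      intro _ hl
      have hlm : l ≤ m := hl m (mem_insert_self _ _)
      have hPm : P ∈ K ((range m).image H) := hKmono (image_subset_image (range_subset_range.2 hlm)) hP
      rcases α.eq_empty_or_nonempty with rfl | hne
      · have := (hH m).2.1 P hPm a ha t ht hPW
        simpa using this
      · have h1 := ih hne (fun i hi => hl i (mem_insert_of_mem hi))
        have h2 := (hH m).2.2 P hPm a ha t ht (α.image H) (by
          rw [mem_powerset]
          refine image_subset_image ?_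
          intro i hi
          exact mem_range.2 (hmax i hi))
        have h3 : (α.image H).biUnion id = α.biUnion H := by
          rw [image_biUnion]
          rfl
        rw [h3] at h2
        rw [biUnion_insert, union_comm]
        exact h2 h1
  refine ⟨H, fun m => (hH m).1.1, fun m i hi j hj => ?_, ?_⟩
  · have h1 := (hH (m + 1)).1.2 j hj
    have h2 : i ≤ (((range (m + 1)).image H).sup (fun γ => γ.sup id)) := by
      refine le_trans (Finset.le_sup (f := id) hi) (Finset.le_sup (f := fun γ : Finset ℕ => γ.sup id) ?_)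
      exact mem_image_of_mem _ (mem_range.2 (Nat.lt_succ_self m))
    omega
  · intro α hα0 hα s hs t ht
    have hαm : ∀ k l, k < l → ∀ i ∈ α k, ∀ j ∈ α l, i < j := by
      intro k l hkl
      induction l with
      | zero => omega
      | succ l ih =>
        intro i hi j hj
        rcases Nat.lt_or_ge k l with h | h
        · obtain ⟨m, hm⟩ := hα0 l
          exact lt_trans (ih h i hi m hm) (hα l m hm j hj)
        · have : k = l := by omega
          subst this
          exact hα k i hi j hj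
    set pos : ℕ → Finset (ℤ × ℤ) × Finset (ℤ × ℤ) := fun L =>
      (((range L).filter (fun l => t l = true)).image (fun l => φ (s l) ((α l).biUnion H)),
        ((range L).filter (fun l => t l = false)).image (fun l => φ (s l) ((α l).biUnion H))) with hpos
    have hposK : ∀ L l, (∀ k < L, ∀ i ∈ α k, i < l) → pos L ∈ K ((range l).image H) := by
      intro L l h
      have h1 : ∀ k < L, φ (s k) ((α k).biUnion H) ∈ forms φ ((range l).image H) := by
        intro k hk
        refine mem_image.2 ⟨(s k, (α k).image H), ?_, ?_⟩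
        · rw [mem_product]
          refine ⟨mem_univ _, ?_⟩
          rw [mem_powerset]
          refine image_subset_image ?_
          intro i hi
          exact mem_range.2 (h k hk i hi)
        · simp only
          rw [image_biUnion]
          rfl
      simp only [hK, hpos, mem_product, mem_powerset]
      constructor
      · intro g hg
        obtain ⟨k, hk, rfl⟩ := mem_image.1 hg
        exact h1 k (mem_range.1 (mem_filter.1 hk).1)
      · intro g hg
        obtain ⟨k, hk, rfl⟩ := mem_image.1 hg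
        exact h1 k (mem_range.1 (mem_filter.1 hk).1)
    have hmain : ∀ L, pos L ∈ W → (α L).biUnion H ∈ E (s L) (t L) (pos L) := by
      intro L hL
      have hne := hα0 L
      refine (hA ((α L).min' hne) (pos L) (hposK L _ ?_) hL (s L) (hs L) (t L) (ht L) (α L) hne ?_).1
      · intro k hk i hi
        exact hαm k L hk i hi _ (min'_mem _ _)
      · intro i hi
        exact min'_le _ _ hi
    have hposW : ∀ L, pos L ∈ W := by
      intro L
      induction L with
      | zero => simpa [hpos] using h0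
      | succ L ih =>
        have h1 := (hmain L ih).1
        have h2 : pos (L + 1) = add (t L) (φ (s L) ((α L).biUnion H)) (pos L) := by
          simp only [hpos, add, range_add_one, filter_insert]
          cases htL : t L
          · simp [image_insert]
          · simp [image_insert]
        rw [h2]
        exact h1
    intro L
    refine ⟨hposW L, fun l hl h => ?_⟩
    have h1 := (hmain L (hposW L)).2
    apply h1
    rw [← h]
    simp only [hpos, mem_union, mem_image, mem_filter, mem_range]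
    cases htl : t l
    · exact Or.inr ⟨l, ⟨hl, htl⟩, rfl⟩
    · exact Or.inl ⟨l, ⟨hl, htl⟩, rfl⟩

end Pool.Agent.H12x.UF
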