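import Mathlib
import Pool.Agent.H12x.UF.Tree

/-! Trees of prime patterns along finitely many ultrafilters: many of the ultrafilters are selected. -/

set_option autoImplicit false

namespace Pool.Agent.H12x.UF

open Finset Filter
open Pool.Agent.N790.IA (hits PI classes avoid blocks blocks_unique)

variable {n : ℕ} {p : Fin n → Ultrafilter (ℤ × ℤ)}

/-- the forms of `P.1` can be prime while those of `P.2` and finitely many given forms of `Y` are not -/
def GY (Y : Set (ℤ × ℤ)) (P : Finset (ℤ × ℤ) × Finset (ℤ × ℤ)) : Prop :=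
  ∀ T : Finset (ℤ × ℤ), (∀ f ∈ T, f ∈ Y ∧ 1 ≤ f.1 ∧ f ∉ P.1) → Good P.1 (P.2 ∪ T)

theorem many (hn : 1 ≤ n) (hp : Adm p) :
    ∃ S : Finset (Fin n), n ≤ 400 * S.card ∧
      ∀ Y : Set (ℤ × ℤ), (∀ a, Yᶜ ∈ p a) → ∀ α, ¬ Bad p (GY Y) S α (∅, ∅) := by
  classical
  by_contra hcon
  have hcon' : ∀ S : Finset (Fin n), ∃ Y : Set (ℤ × ℤ), (∀ a, Yᶜ ∈ p a) ∧
      (n ≤ 400 * S.card → ∃ α, Bad p (GY Y) S α (∅, ∅)) := by
    intro S
    by_cases h : n ≤ 400 * S.card
    · by_contra h2
      refine hcon ⟨S, h, fun Y hY α hα => h2 ⟨Y, hY, fun _ => ⟨α, hα⟩⟩⟩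
    · exact ⟨∅, fun a => by rw [Set.compl_empty]; exact univ_mem, fun h2 => absurd h2 h⟩
  choose Y hY hcon2 using hcon'
  choose sa st sX hsX hs using fun (S : Finset (Fin n)) (P : Finset (ℤ × ℤ) × Finset (ℤ × ℤ)) =>
    strat (p := p) (G := GY (Y S)) hn S P
  obtain ⟨off, hoff, h0, hcl⟩ := classes
  choose blk hblk1 hblk2 using blocks hoff h0
  set lab : ℕ → Fin n := fun i =>
    if i % 2 = 0 then ⟨blk (i / 2) % n, Nat.mod_lt _ hn⟩ else ⟨(i / 2) % n, Nat.mod_lt _ hn⟩ with hlab
  obtain ⟨f, hfinj, hfΦ, hfA, hfcop, hfadm⟩ := hp.generic lab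
    (fun a Q => {f | ∀ S, f ∈ (Y S)ᶜ} ∩
      {f | ∀ S : Finset (Fin n), ∀ P ∈ Q.powerset ×ˢ Q.powerset, sa S P = a → f ∈ sX S P}) (by
    intro a Q
    refine inter_mem ?_ ?_
    · have : ∀ᶠ f in (p a : Filter (ℤ × ℤ)), ∀ S, f ∈ (Y S)ᶜ := by
        rw [Filter.eventually_all]
        intro S
        exact hY S a
      exact this
    · have : ∀ᶠ f in (p a : Filter (ℤ × ℤ)), ∀ S : Finset (Fin n), ∀ P ∈ Q.powerset ×ˢ Q.powerset,
          sa S P = a → f ∈ sX S P := by
        rw [Filter.eventually_all]
        intro S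
        rw [Filter.eventually_all_finset]
        intro P _
        by_cases h : sa S P = a
        · subst h
          filter_upwards [hsX S P] with f hf _ using hf
        · filter_upwards with f h2 using absurd h2 h
      exact this)
  have he2 : StrictMono (fun i : ℕ => 2 * i) := fun i j h => by
    change 2 * i < 2 * j
    omega
  obtain ⟨I, hPI, hI⟩ := hcl n hn (fun i => (f (2 * i)).1) (fun i => (f (2 * i)).2) (fun i => hfA _)
    (fun i => hfcop _) (fun i j hij => by
      have h1 : f (2 * i) = f (2 * j) := Prod.ext (Prod.ext_iff.1 hij).1 (Prod.ext_iff.1 hij).2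
      have := hfinj h1
      omega) (hfadm _ he2)
  -- a set of labels which occurs infinitely often
  obtain ⟨S, hS, hSf⟩ : ∃ S : Finset (Fin n), n ≤ 400 * S.card ∧
      ∃ᶠ β in atTop, ∀ a ∈ S, hits off I (β * n + a) := by
    by_contra hcon2
    have h1 : ∀ᶠ β in atTop, ∀ S : Finset (Fin n), n ≤ 400 * S.card → ¬ ∀ a ∈ S, hits off I (β * n + a) := by
      rw [Filter.eventually_all]
      intro S
      by_cases h : n ≤ 400 * S.card
      · have h2 : ¬ ∃ᶠ β in atTop, ∀ a ∈ S, hits off I (β * n + a) := fun h3 => hcon2 ⟨S, h, h3⟩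
        rw [Filter.not_frequently] at h2
        filter_upwards [h2] with β hβ _ using hβ
      · filter_upwards with β h3 using absurd h3 h
    obtain ⟨β, hβ1, hβ2⟩ := (hPI.and_eventually h1).exists
    refine hβ2 (univ.filter (fun a : Fin n => hits off I (β * n + a))) ?_ (fun a ha => (mem_filter.1 ha).2)
    have h3 : (univ.filter (fun a : Fin n => hits off I (β * n + a))).map Fin.valEmbedding =
        (range n).filter (fun a => hits off I (β * n + a)) := by
      ext a
      simp only [Finset.mem_map, mem_filter, mem_univ, true_and, mem_range, Fin.valEmbedding_apply]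
      constructor
      · rintro ⟨b, hb, rfl⟩
        exact ⟨b.2, hb⟩
      · rintro ⟨ha, hb⟩
        exact ⟨⟨a, ha⟩, hb, rfl⟩
    rw [← card_map Fin.valEmbedding, h3]
    exact hβ1
  obtain ⟨α, hα⟩ := hcon2 S hS
  -- descent
  have key : ∀ ρ : Ordinal.{0}, ∀ (P : Finset (ℤ × ℤ) × Finset (ℤ × ℤ)) (N : ℕ),
      Bad p (GY (Y S)) S ρ P → (∀ g ∈ P.1, ∃ i ∈ I, 2 * i < N ∧ g = f (2 * i)) →
      (∀ g ∈ P.2, ∃ i, 2 * i + 1 < N ∧ g = f (2 * i + 1)) → False := by
    intro ρ
    induction ρ using WellFoundedLT.induction with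
    | ind ρ ih =>
      intro P N hB hP1 hP2
      by_cases hmin : ∃ ρ' < ρ, Bad p (GY (Y S)) S ρ' P
      · obtain ⟨ρ', h1, h2⟩ := hmin
        exact ih ρ' h1 P N h2 hP1 hP2
      · push Not at hmin
        have hG : GY (Y S) P := by
          intro T hT
          refine (hI (P.1 ∪ (P.2 ∪ T)) ?_).mono ?_
          · intro g hg
            rcases mem_union.1 hg with h | h
            · obtain ⟨i, _, _, rfl⟩ := hP1 g h
              exact hfA _
            · rcases mem_union.1 h with h | h
              · obtain ⟨i, _, rfl⟩ := hP2 g h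
                exact hfA _
              · exact (hT g h).2.1
          · intro x hx
            refine ⟨fun g hg => ?_, fun g hg hq => ?_⟩
            · obtain ⟨i, hi, _, rfl⟩ := hP1 g hg
              exact (hx _ (mem_union_left _ hg)).2 ⟨i, hi, rfl⟩
            · obtain ⟨i, _, hgi⟩ := (hx g (mem_union_right _ hg)).1 hq
              have hgi' : g = f (2 * i) := hgi
              rcases mem_union.1 hg with h | h
              · obtain ⟨j, _, hj⟩ := hP2 g h
                have := hfinj (hgi'.symm.trans hj)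
                omega
              · have h1 := (hfΦ (2 * i)).1 S
                rw [← hgi'] at h1
                exact h1 (hT g h).1
        obtain ⟨ha, hX⟩ := hs S P ρ hB hmin hG
        have hPN : ∀ i, N ≤ i → P ∈ ((range i).image f).powerset ×ˢ ((range i).image f).powerset := by
          intro i hi
          rw [mem_product, mem_powerset, mem_powerset]
          constructor
          · intro g hg
            obtain ⟨j, _, hj, rfl⟩ := hP1 g hg
            exact mem_image_of_mem _ (mem_range.2 (by omega))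
          · intro g hg
            obtain ⟨j, hj, rfl⟩ := hP2 g hg
            exact mem_image_of_mem _ (mem_range.2 (by omega))
        cases hst : st S P with
        | true =>
          obtain ⟨β, hβN, hβ⟩ := (Filter.frequently_atTop.1 hSf) N
          obtain ⟨i, hi, hiI⟩ := hβ _ ha
          rw [mem_Ico] at hi
          have hNi : N ≤ 2 * i := by
            have h1 : β * n + (sa S P : ℕ) ≤ off (β * n + (sa S P : ℕ)) := hoff.id_le _
            have h2 : β ≤ β * n := Nat.le_mul_of_pos_right _ hn
            omega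
          have hlabi : lab (2 * i) = sa S P := by
            have h1 : blk i = β * n + (sa S P : ℕ) :=
              blocks_unique hoff (hblk1 i) (hblk2 i) hi.1 hi.2
            have h2 : 2 * i % 2 = 0 := by omega
            have h3 : 2 * i / 2 = i := by omega
            apply Fin.ext
            simp only [hlab, h2, if_true, h3, h1]
            rw [Nat.mul_add_mod_self_right, Nat.mod_eq_of_lt (sa S P).2]
          have hfX : f (2 * i) ∈ sX S P := (hfΦ (2 * i)).2 S P (hPN _ hNi) hlabi.symm
          obtain ⟨ρ', hρ', hB'⟩ := hX _ hfX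
          rw [hst] at hB'
          refine ih ρ' hρ' _ (2 * i + 1) hB' ?_ ?_
          · intro g hg
            simp only [add, if_true] at hg
            rcases mem_insert.1 hg with rfl | hg
            · exact ⟨i, hiI, by omega, rfl⟩
            · obtain ⟨i', h1, h2, h3⟩ := hP1 g hg
              exact ⟨i', h1, by omega, h3⟩
          · intro g hg
            simp only [add, if_true] at hg
            obtain ⟨i', h2, h3⟩ := hP2 g hg
            exact ⟨i', by omega, h3⟩
        | false =>
          obtain ⟨i, hi⟩ : ∃ i : ℕ, i = N * n + (sa S P : ℕ) := ⟨_, rfl⟩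
          have hNi : N ≤ 2 * i + 1 := by
            have h2 : N ≤ N * n := Nat.le_mul_of_pos_right _ hn
            omega
          have hlabi : lab (2 * i + 1) = sa S P := by
            have h2 : ¬ (2 * i + 1) % 2 = 0 := by omega
            have h3 : (2 * i + 1) / 2 = i := by omega
            apply Fin.ext
            simp only [hlab]
            rw [if_neg h2]
            simp only [h3]
            rw [hi, Nat.mul_add_mod_self_right, Nat.mod_eq_of_lt (sa S P).2]
          have hfX : f (2 * i + 1) ∈ sX S P := (hfΦ (2 * i + 1)).2 S P (hPN _ hNi) hlabi.symm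
          obtain ⟨ρ', hρ', hB'⟩ := hX _ hfX
          rw [hst] at hB'
          refine ih ρ' hρ' _ (2 * i + 2) hB' ?_ ?_
          · intro g hg
            simp only [add, Bool.false_eq_true, if_false] at hg
            obtain ⟨i', h1, h2, h3⟩ := hP1 g hg
            exact ⟨i', h1, by omega, h3⟩
          · intro g hg
            simp only [add, Bool.false_eq_true, if_false] at hg
            rcases mem_insert.1 hg with rfl | hg
            · exact ⟨i, by omega, rfl⟩
            · obtain ⟨i', h2, h3⟩ := hP2 g hg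
              exact ⟨i', by omega, h3⟩
  exact key α (∅, ∅) 0 hα (by simp) (by simp)

/-- **Trees of prime patterns along finitely many ultrafilters.** -/
theorem trees (hn : 1 ≤ n) (hp : Adm p) :
    ∃ S : Finset (Fin n), n ≤ 400 * S.card ∧
      ∀ Y : Set (ℤ × ℤ), (∀ a, Yᶜ ∈ p a) → ∃ W : Set (Finset (ℤ × ℤ) × Finset (ℤ × ℤ)), (∅, ∅) ∈ W ∧
        (∀ P ∈ W, GY Y P) ∧ ∀ P ∈ W, ∀ a ∈ S, ∀ t : Bool, {f | add t f P ∈ W} ∈ p a := by
  obtain ⟨S, hS, h⟩ := many hn hp
  refine ⟨S, hS, fun Y hY => ⟨{P | ∀ α, ¬ Bad p (GY Y) S α P}, h Y hY, fun P hP => good_of_not hP,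
    fun P hP a ha t => next_of_not hP ha t⟩⟩

end Pool.Agent.H12x.UF
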