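import Mathlib
import Pool.Agent.H12x.UF.Tree

/-! Trees of exact prime patterns along one ultrafilter. -/

set_option autoImplicit false

namespace Pool.Agent.H12x.UF

open Finset Filter
open Pool.Agent.N790.IA (hits PI classes)

/-- the sets from which a set without the property `G` is reached -/
inductive Bad1 (p : Ultrafilter (ℤ × ℤ)) (G : Finset (ℤ × ℤ) → Prop) :
    Ordinal.{0} → Finset (ℤ × ℤ) → Prop
  | base (α : Ordinal.{0}) (F : Finset (ℤ × ℤ)) : ¬ G F → Bad1 p G α F
  | step (α : Ordinal.{0}) (F : Finset (ℤ × ℤ))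
      (X : Set (ℤ × ℤ)) (hX : X ∈ p) (b : ℤ × ℤ → Ordinal.{0}) (hb : ∀ f ∈ X, b f < α)
      (h : ∀ f ∈ X, Bad1 p G (b f) (insert f F)) : Bad1 p G α F

variable {p : Ultrafilter (ℤ × ℤ)} {G : Finset (ℤ × ℤ) → Prop}

theorem good_of_not1 {F : Finset (ℤ × ℤ)} (h : ∀ α, ¬ Bad1 p G α F) : G F := by
  by_contra hG
  exact h 0 (Bad1.base 0 F hG)

theorem next_of_not1 {F : Finset (ℤ × ℤ)} (h : ∀ α, ¬ Bad1 p G α F) :
    {f | ∀ α, ¬ Bad1 p G α (insert f F)} ∈ p := by
  classical
  by_contra hcon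
  have hcon' : {f | ∃ α, Bad1 p G α (insert f F)} ∈ p := by
    rw [← Ultrafilter.compl_mem_iff_notMem] at hcon
    refine Filter.mem_of_superset hcon ?_
    intro f hf
    simp only [Set.mem_compl_iff, Set.mem_ofPred_eq, not_forall, not_not] at hf
    exact hf
  set b : ℤ × ℤ → Ordinal.{0} := fun f =>
    if hj : ∃ α, Bad1 p G α (insert f F) then hj.choose else 0 with hb
  obtain ⟨M, hM⟩ : BddAbove (Set.range b) := Ordinal.bddAbove_of_small
  refine h (Order.succ M) (Bad1.step _ F _ hcon' b (fun f _ => ?_) (fun f hf => ?_))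
  · exact Order.lt_succ_of_le (hM (Set.mem_range_self f))
  · have hf' : ∃ α, Bad1 p G α (insert f F) := hf
    simp only [hb]
    rw [dif_pos hf']
    exact hf'.choose_spec

theorem strat1 (p : Ultrafilter (ℤ × ℤ)) (G : Finset (ℤ × ℤ) → Prop) (F : Finset (ℤ × ℤ)) :
    ∃ (X : Set (ℤ × ℤ)), X ∈ p ∧
      ∀ ρ, Bad1 p G ρ F → (∀ ρ' < ρ, ¬ Bad1 p G ρ' F) → G F →
        ∀ f ∈ X, ∃ β < ρ, Bad1 p G β (insert f F) := by
  by_cases h : ∃ ρ, Bad1 p G ρ F ∧ (∀ ρ' < ρ, ¬ Bad1 p G ρ' F) ∧ G F
  · obtain ⟨ρ, h1, h2, h3⟩ := h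
    cases h1 with
    | base _ _ h4 => exact absurd h3 h4
    | step _ _ X hX b hb h4 =>
      refine ⟨X, hX, fun ρ' h5 h6 _ => ?_⟩
      have h7 : ρ' = ρ := by
        rcases lt_trichotomy ρ' ρ with h8 | h8 | h8
        · exact absurd h5 (h2 _ h8)
        · exact h8
        · exact absurd (Bad1.step _ _ X hX b hb h4) (h6 _ h8)
      subst h7
      exact fun f hf => ⟨b f, hb f hf, h4 f hf⟩
  · exact ⟨Set.univ, Filter.univ_mem, fun ρ h1 h2 h3 => absurd ⟨ρ, h1, h2, h3⟩ h⟩

/-- the forms of `F` can be prime while those of any given finite set of other forms are not -/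
def Ex (F : Finset (ℤ × ℤ)) : Prop := ∀ T : Finset (ℤ × ℤ), (∀ f ∈ T, 1 ≤ f.1 ∧ f ∉ F) → Good F T

theorem one_not_bad (hfree : ∀ f, {f}ᶜ ∈ p) (hform : {f : ℤ × ℤ | 1 ≤ f.1 ∧ IsCoprime f.1 f.2} ∈ p) :
    ∀ α, ¬ Bad1 p Ex α ∅ := by
  classical
  have hp : Adm (fun _ : Fin 1 => p) := ⟨fun _ => hfree, fun _ => hform, fun q hq h => by
    have := hq.two_le
    omega⟩
  intro α hα
  choose sX hsX hs using fun F : Finset (ℤ × ℤ) => strat1 p Ex F
  have hT : ∀ F : Finset (ℤ × ℤ), ∃ T : Finset (ℤ × ℤ), (∀ f ∈ T, 1 ≤ f.1 ∧ f ∉ F) ∧ (¬ Ex F → ¬ Good F T) := by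
    intro F
    by_cases h : Ex F
    · exact ⟨∅, by simp, fun h2 => absurd h h2⟩
    · unfold Ex at h
      push Not at h
      obtain ⟨T, h1, h2⟩ := h
      exact ⟨T, h1, fun _ => h2⟩
  choose T hT1 hT2 using hT
  obtain ⟨f, hfinj, hfΦ, hfA, hfcop, hfadm⟩ := hp.generic (fun _ => 0)
    (fun _ Q => {f | ∀ F ∈ Q.powerset, f ∈ sX F} ∩ {f | ∀ F ∈ Q.powerset, f ∉ T F}) (by
    intro a Q
    refine inter_mem ?_ ?_
    · have : ∀ᶠ f in (p : Filter (ℤ × ℤ)), ∀ F ∈ Q.powerset, f ∈ sX F := by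
        rw [Filter.eventually_all_finset]
        intro F _
        exact hsX F
      exact this
    · have : ∀ᶠ f in (p : Filter (ℤ × ℤ)), ∀ F ∈ Q.powerset, f ∉ T F := by
        rw [Filter.eventually_all_finset]
        intro F _
        exact hp.notMem 0 (T F)
      exact this)
  obtain ⟨off, hoff, h0, hcl⟩ := classes
  obtain ⟨I, hPI, hI⟩ := hcl 1 le_rfl (fun i => (f i).1) (fun i => (f i).2) (fun i => hfA _)
    (fun i => hfcop _) (fun i j hij => hfinj (Prod.ext (Prod.ext_iff.1 hij).1 (Prod.ext_iff.1 hij).2))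
    (hfadm id strictMono_id)
  have hinf : ∀ N : ℕ, ∃ i ∈ I, N ≤ i := by
    intro N
    obtain ⟨j, hj, hj2⟩ := (Filter.frequently_atTop.1 hPI) N
    have h1 : ((range 1).filter (fun a => hits off I (j * 1 + a))).Nonempty := by
      rw [← Finset.card_pos]
      omega
    obtain ⟨a, ha⟩ := h1
    obtain ⟨i, hi, hiI⟩ := (mem_filter.1 ha).2
    rw [mem_Ico] at hi
    have h2 : j * 1 + a ≤ off (j * 1 + a) := hoff.id_le _
    exact ⟨i, hiI, by omega⟩
  have key : ∀ ρ : Ordinal.{0}, ∀ N : ℕ,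
      Bad1 p Ex ρ (((range N).filter (· ∈ I)).image f) → False := by
    intro ρ
    induction ρ using WellFoundedLT.induction with
    | ind ρ ih =>
      intro N hB
      set F : Finset (ℤ × ℤ) := ((range N).filter (· ∈ I)).image f with hF
      by_cases hmin : ∃ ρ' < ρ, Bad1 p Ex ρ' F
      · obtain ⟨ρ', h1, h2⟩ := hmin
        exact ih ρ' h1 N h2
      · push Not at hmin
        have hFN : ∀ i, N ≤ i → F ∈ ((range i).image f).powerset := by
          intro i hi
          rw [mem_powerset]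
          refine image_subset_image ?_
          intro j hj
          rw [mem_filter, mem_range] at hj
          exact mem_range.2 (by omega)
        have hG : Ex F := by
          by_contra hnot
          refine hT2 F hnot ?_
          refine (hI (F ∪ T F) ?_).mono ?_
          · intro g hg
            rcases mem_union.1 hg with h | h
            · obtain ⟨i, _, rfl⟩ := mem_image.1 h
              exact hfA _
            · exact (hT1 F g h).1
          · intro x hx
            refine ⟨fun g hg => ?_, fun g hg hq => ?_⟩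
            · obtain ⟨i, hi, rfl⟩ := mem_image.1 hg
              exact (hx _ (mem_union_left _ hg)).2 ⟨i, (mem_filter.1 hi).2, rfl⟩
            · obtain ⟨i, hi, hgi⟩ := (hx g (mem_union_right _ hg)).1 hq
              have hgi' : g = f i := hgi
              rcases Nat.lt_or_ge i N with h | h
              · exact (hT1 F g hg).2 (by
                  rw [hgi', hF]
                  exact mem_image_of_mem _ (mem_filter.2 ⟨mem_range.2 h, hi⟩))
              · refine (hfΦ i).2 F (hFN i h) ?_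
                rw [← hgi']
                exact hg
        have hX := hs F ρ hB hmin hG
        obtain ⟨M, hM⟩ : ∃ M, M = Nat.find (hinf N) := ⟨_, rfl⟩
        obtain ⟨hMI, hMN⟩ := Nat.find_spec (hinf N)
        rw [← hM] at hMI hMN
        obtain ⟨ρ', hρ', hB'⟩ := hX (f M) ((hfΦ M).1 F (hFN M hMN))
        refine ih ρ' hρ' (M + 1) ?_
        have e : ((range (M + 1)).filter (· ∈ I)).image f = insert (f M) F := by
          rw [hF, ← image_insert]
          congr 1
          ext j
          simp only [mem_filter, mem_range, mem_insert]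
          constructor
          · rintro ⟨h1, h2⟩
            by_cases h3 : j = M
            · exact Or.inl h3
            · refine Or.inr ⟨?_, h2⟩
              by_contra h4
              have := Nat.find_min' (hinf N) ⟨h2, not_lt.1 h4⟩
              omega
          · rintro (rfl | ⟨h1, h2⟩)
            · exact ⟨Nat.lt_succ_self _, hMI⟩
            · exact ⟨by omega, h2⟩
        rw [e]
        exact hB'
  exact key α 0 (by simpa using hα)

/-- **Trees of exact prime patterns along one ultrafilter.** -/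
theorem tree_one (hfree : ∀ f, {f}ᶜ ∈ p) (hform : {f : ℤ × ℤ | 1 ≤ f.1 ∧ IsCoprime f.1 f.2} ∈ p) :
    ∃ W : Set (Finset (ℤ × ℤ)), ∅ ∈ W ∧ (∀ F ∈ W, Ex F) ∧ ∀ F ∈ W, {f | insert f F ∈ W} ∈ p :=
  ⟨{F | ∀ α, ¬ Bad1 p Ex α F}, one_not_bad hfree hform, fun _ hF => good_of_not1 hF,
    fun _ hF => next_of_not1 hF⟩

end Pool.Agent.H12x.UF
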