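import Mathlib
import Pool.Agent.H12x.UF.Many
import Pool.Agent.H12x.UF.One
import Pool.Agent.H12x.UF.Blk

/-! Prime patterns in sums over blocks. -/

set_option autoImplicit false

namespace Pool.Agent.H12x.UF

open Finset Filter

/-- a sequence of successive nonempty finite sets -/
def Blocks (H : ℕ → Finset ℕ) : Prop := (∀ m, (H m).Nonempty) ∧ ∀ m, ∀ i ∈ H m, ∀ j ∈ H (m + 1), i < j

theorem Blocks.lt {H : ℕ → Finset ℕ} (h : Blocks H) {k l : ℕ} (hkl : k < l) {i j : ℕ} (hi : i ∈ H k)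
    (hj : j ∈ H l) : i < j := by
  induction l generalizing i j with
  | zero => omega
  | succ l ih =>
    rcases Nat.lt_or_ge k l with h1 | h1
    · obtain ⟨m, hm⟩ := h.1 l
      exact lt_trans (ih h1 hi hm) (h.2 l m hm j hj)
    · have : k = l := by omega
      subst this
      exact h.2 k i hi j hj

/-- a large set contains all unions of the members of a sequence of blocks -/
theorem hindman {V : Ultrafilter (Finset ℕ)}
    (hV0 : ∀ m : ℕ, {β : Finset ℕ | β.Nonempty ∧ ∀ i ∈ β, m ≤ i} ∈ V)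
    (hV : ∀ A : Set (Finset ℕ), (A ∈ V ↔ {β : Finset ℕ | {γ : Finset ℕ | β ∪ γ ∈ A} ∈ V} ∈ V))
    {A : Set (Finset ℕ)} (hA : A ∈ V) :
    ∃ H, Blocks H ∧ ∀ α : Finset ℕ, α.Nonempty → α.biUnion H ∈ A := by
  classical
  obtain ⟨H, hH⟩ := gseq (n := 1) (fun _ => V) (fun _ => 0)
    (fun _ Q => {β | β.Nonempty ∧ ∀ i ∈ β, Q.sup (fun γ => γ.sup id) + 1 ≤ i} ∩
      (star V A ∩ {β | ∀ R ∈ Q.powerset, R.biUnion id ∈ star V A → R.biUnion id ∪ β ∈ star V A})) (by
    intro _ Q
    refine inter_mem (hV0 _) (inter_mem (star_mem hV hA) ?_)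
    have : ∀ᶠ β in (V : Filter (Finset ℕ)), ∀ R ∈ Q.powerset,
        R.biUnion id ∈ star V A → R.biUnion id ∪ β ∈ star V A := by
      rw [Filter.eventually_all_finset]
      intro R _
      by_cases hR : R.biUnion id ∈ star V A
      · filter_upwards [star_step hV hR] with β hβ _ using hβ
      · filter_upwards with β h using absurd h hR
    exact this)
  refine ⟨H, ⟨fun m => (hH m).1.1, fun m i hi j hj => ?_⟩, ?_⟩
  · have h1 := (hH (m + 1)).1.2 j hj
    have h2 : i ≤ (((range (m + 1)).image H).sup (fun γ => γ.sup id)) := by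
      refine le_trans (Finset.le_sup (f := id) hi) (Finset.le_sup (f := fun γ : Finset ℕ => γ.sup id) ?_)
      exact mem_image_of_mem _ (mem_range.2 (Nat.lt_succ_self m))
    omega
  · have key : ∀ α : Finset ℕ, α.Nonempty → α.biUnion H ∈ star V A := by
      intro α
      induction α using Finset.induction_on_max with
      | empty => intro h; exact absurd h (by simp)
      | insert m α hmax ih =>
        intro _
        rcases α.eq_empty_or_nonempty with rfl | hne
        · have := (hH m).2.1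
          simpa using this
        · have h2 := (hH m).2.2 (α.image H) (by
            rw [mem_powerset]
            refine image_subset_image ?_
            intro i hi
            exact mem_range.2 (hmax i hi))
          have h3 : (α.image H).biUnion id = α.biUnion H := by
            rw [image_biUnion]
            rfl
          rw [h3] at h2
          rw [biUnion_insert, union_comm]
          exact h2 (ih hne)
    exact fun α hα => (key α hα).1

/-- **one arbitrary family of forms indexed by finite sets** -/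
theorem one_family (φ : Finset ℕ → ℤ × ℤ) (hφ : ∀ β, β.Nonempty → 1 ≤ (φ β).1 ∧ IsCoprime (φ β).1 (φ β).2) :
    ∃ H, Blocks H ∧ ((∃ f, ∀ α : Finset ℕ, α.Nonempty → φ (α.biUnion H) = f) ∨
      ∀ α, Blocks α → ∀ L : ℕ, (∀ l < L, φ ((α l).biUnion H) ≠ φ ((α L).biUnion H)) ∧
        Ex ((range L).image (fun l => φ ((α l).biUnion H)))) := by
  classical
  obtain ⟨V, hV0, hV⟩ := exists_idem
  by_cases hc : ∃ f, {β | φ β = f} ∈ V
  · obtain ⟨f, hf⟩ := hc
    obtain ⟨H, hH, h⟩ := hindman hV0 hV hf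
    exact ⟨H, hH, Or.inl ⟨f, h⟩⟩
  · push Not at hc
    obtain ⟨W, hW0, hWE, hW⟩ := tree_one (p := V.map φ) (fun f => by
      rw [Ultrafilter.mem_map]
      have := hc f
      rw [← Ultrafilter.compl_mem_iff_notMem] at this
      exact this) (by
      rw [Ultrafilter.mem_map]
      filter_upwards [hV0 0] with β hβ using hφ β hβ.1)
    have hfree : ∀ Q : Finset (ℤ × ℤ), {β | φ β ∉ Q} ∈ V := by
      intro Q
      have : ∀ᶠ β in (V : Filter (Finset ℕ)), ∀ g ∈ Q, φ β ≠ g := by
        rw [Filter.eventually_all_finset]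
        intro g _
        have := hc g
        rw [← Ultrafilter.compl_mem_iff_notMem] at this
        exact this
      filter_upwards [this] with β hβ hβQ
      exact hβ _ hβQ rfl
    obtain ⟨H, hH1, hH2, h⟩ := fusion (n := 1) hV0 hV (fun _ => φ) univ {true}
      {P | P.1 ∈ W ∧ P.2 = ∅} ⟨hW0, rfl⟩ (by
      rintro ⟨P1, P2⟩ ⟨hP1, hP2⟩ a _ t ht
      rw [mem_singleton] at ht
      subst ht
      simp only at hP1 hP2
      subst hP2
      have h1 := hW P1 hP1
      rw [Ultrafilter.mem_map] at h1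
      filter_upwards [h1, hfree P1] with β h2 h3
      refine ⟨⟨h2, rfl⟩, ?_⟩
      simpa using h3)
    refine ⟨H, ⟨hH1, hH2⟩, Or.inr fun α hα L => ?_⟩
    obtain ⟨h1, h2⟩ := h α hα.1 hα.2 (fun _ => 0) (fun _ => mem_univ _) (fun _ => true)
      (fun _ => mem_singleton_self _) L
    refine ⟨h2, ?_⟩
    have h3 := hWE _ h1.1
    simpa using h3

/-- **several families of shifts given by sums** -/
theorem sums {n : ℕ} (hn : 1 ≤ n) (x : Fin n → ℕ → ℤ) (hx : ∀ i (β : Finset ℕ), β.Nonempty → ∑ j ∈ β, x i j ≠ 0)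
    (c : Fin n → ℤ) (hc : ∀ q : ℕ, q.Prime → q ≤ n → ∃ r : ℤ, ∀ i, ¬ (q : ℤ) ∣ r + c i) :
    ∃ (S : Finset (Fin n)) (H : ℕ → Finset ℕ), n ≤ 400 * S.card ∧ Blocks H ∧
      ∀ α, Blocks α → ∀ s : ℕ → Fin n, (∀ l, s l ∈ S) → ∀ t : ℕ → Bool, ∀ L : ℕ,
        (∀ l < L, c (s l) + ∑ j ∈ (α l).biUnion H, x (s l) j ≠ c (s L) + ∑ j ∈ (α L).biUnion H, x (s L) j) ∧
        {m : ℕ | ∀ l < L, (((m : ℤ) + (c (s l) + ∑ j ∈ (α l).biUnion H, x (s l) j)).toNat.Prime ↔
          t l = true)}.Infinite := by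
  classical
  obtain ⟨V, hV0, hV⟩ := exists_idem
  set φ : Fin n → Finset ℕ → ℤ × ℤ := fun i β => (1, c i + ∑ j ∈ β, x i j) with hφ
  have hdisj : ∀ β : Finset ℕ, {γ : Finset ℕ | Disjoint β γ} ∈ V := by
    intro β
    filter_upwards [hV0 (β.sup id + 1)] with γ hγ
    rw [Finset.disjoint_left]
    intro i hi hi2
    have h1 := hγ.2 i hi2
    have h2 : i ≤ β.sup id := Finset.le_sup (f := id) hi
    omega
  have hne : ∀ i (C : ℤ), {β : Finset ℕ | ∑ j ∈ β, x i j ≠ C} ∈ V := by
    intro i C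
    by_contra hcon
    have hA : {β : Finset ℕ | ∑ j ∈ β, x i j = C} ∈ V := by
      rw [← Ultrafilter.compl_mem_iff_notMem] at hcon
      refine Filter.mem_of_superset hcon ?_
      intro β hβ
      simpa using hβ
    obtain ⟨β, hβ⟩ := V.nonempty_of_mem (inter_mem (inter_mem hA ((hV _).1 hA)) (hV0 0))
    obtain ⟨γ, hγ⟩ := V.nonempty_of_mem (inter_mem (inter_mem hA hβ.1.2) (hdisj β))
    have h1 : ∑ j ∈ β, x i j = C := hβ.1.1
    have h2 : ∑ j ∈ γ, x i j = C := hγ.1.1
    have h3 : ∑ j ∈ β ∪ γ, x i j = C := hγ.1.2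
    rw [sum_union hγ.2, h1, h2] at h3
    have h4 : C = 0 := by omega
    exact hx i β hβ.2.1 (by rw [h1, h4])
  have hz : ∀ (q : ℕ), q.Prime → ∀ i, {β : Finset ℕ | (q : ℤ) ∣ ∑ j ∈ β, x i j} ∈ V := by
    intro q hq i
    haveI : NeZero q := ⟨hq.ne_zero⟩
    obtain ⟨v, hv⟩ := lim_val V (fun β : Finset ℕ => ((∑ j ∈ β, x i j : ℤ) : ZMod q))
    have hv0 : v = 0 := by
      obtain ⟨β, hβ⟩ := V.nonempty_of_mem (inter_mem hv ((hV _).1 hv))
      obtain ⟨γ, hγ⟩ := V.nonempty_of_mem (inter_mem (inter_mem hv hβ.2) (hdisj β))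
      have h1 : ((∑ j ∈ β, x i j : ℤ) : ZMod q) = v := hβ.1
      have h2 : ((∑ j ∈ γ, x i j : ℤ) : ZMod q) = v := hγ.1.1
      have h3 : ((∑ j ∈ β ∪ γ, x i j : ℤ) : ZMod q) = v := hγ.1.2
      rw [sum_union hγ.2, Int.cast_add, h1, h2] at h3
      simpa using h3
    filter_upwards [hv] with β hβ
    rw [← ZMod.intCast_zmod_eq_zero_iff_dvd]
    rw [← hv0]
    exact hβ
  have hadm : Adm (fun i => V.map (φ i)) := by
    refine ⟨fun i f => ?_, fun i => ?_, fun q hq hqn => ?_⟩
    · rw [Ultrafilter.mem_map]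
      filter_upwards [hne i (f.2 - c i)] with β hβ h
      apply hβ
      have : φ i β = f := h
      rw [← this, hφ]
      simp
    · rw [Ultrafilter.mem_map]
      filter_upwards with β
      simp only [hφ, Set.mem_preimage, Set.mem_ofPred_eq]
      exact ⟨le_rfl, isCoprime_one_left⟩
    · obtain ⟨r, hr⟩ := hc q hq hqn
      refine ⟨r, fun i => ?_⟩
      rw [Ultrafilter.mem_map]
      filter_upwards [hz q hq i] with β hβ
      simp only [hφ, Set.mem_preimage, Set.mem_ofPred_eq]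
      intro h
      apply hr i
      have h1 : r + c i = (1 * r + (c i + ∑ j ∈ β, x i j)) - ∑ j ∈ β, x i j := by ring
      rw [h1]
      exact dvd_sub h hβ
  obtain ⟨S, hS, hY⟩ := trees hn hadm
  obtain ⟨W, hW0, hWG, hW⟩ := hY ∅ (fun a => by rw [Set.compl_empty]; exact univ_mem)
  obtain ⟨H, hH1, hH2, h⟩ := fusion hV0 hV φ S univ W hW0 (by
    intro P hP a ha t _
    have h1 := hW P hP a ha t
    have h2 := hadm.notMem a (P.1 ∪ P.2)
    rw [Ultrafilter.mem_map] at h1 h2
    filter_upwards [h1, h2] with β h3 h4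
    exact ⟨h3, h4⟩)
  refine ⟨S, H, hS, ⟨hH1, hH2⟩, fun α hα s hs t L => ?_⟩
  obtain ⟨h1, h2⟩ := h α hα.1 hα.2 s hs t (fun _ => mem_univ _) L
  refine ⟨fun l hl heq => h2 l hl (by simp only [hφ]; rw [heq]), ?_⟩
  have h3 := hWG _ h1 ∅ (by simp)
  refine Set.Infinite.mono ?_ h3
  intro m hm l hl
  constructor
  · intro hpr
    by_contra htl
    have htl' : t l = false := by simpa using htl
    refine hm.2 (φ (s l) ((α l).biUnion H)) ?_ ?_
    · rw [union_empty]
      exact mem_image_of_mem _ (mem_filter.2 ⟨mem_range.2 hl, htl'⟩)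
    · simp only [hφ, one_mul]
      exact hpr
  · intro htl
    have h4 := hm.1 (φ (s l) ((α l).biUnion H)) (mem_image_of_mem _ (mem_filter.2 ⟨mem_range.2 hl, htl⟩))
    simp only [hφ, one_mul] at h4
    exact h4

end Pool.Agent.H12x.UF
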